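import Pool.Agent.H.MP_8006ab_lc.F

set_option autoImplicit false

namespace Pool.Agent.Results.MP_8006ab_lc.Complete

open Pool.Agent.Lib.CX

/-- Two proper `k`-colourings are adjacent when they differ at exactly one vertex. -/
def Step {V : Type} {G : SimpleGraph V} {k : ℕ} (f g : G.Coloring (Fin k)) : Prop :=
  ∃ v, f v ≠ g v ∧ ∀ u, u ≠ v → f u = g u

/-- `G` is `k`-mixing: any two proper `k`-colourings are joined by a path of single-vertex recolourings. -/
def Mixing (k : ℕ) {V : Type} (G : SimpleGraph V) : Prop :=
  ∀ f g : G.Coloring (Fin k), Relation.ReflTransGen Step f g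

theorem result (k : ℕ) (hk : 4 ≤ k) : PSPACEComplete fun a : Gr => Mixing k a.G :=
  H.MP_8006ab_lc.complete k hk

end Pool.Agent.Results.MP_8006ab_lc.Complete
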